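import Mathlib
import Pool.Agent.H24.PathList

namespace Pool.Agent.Results.MP_0ab4d0_co.NotInterval

open SimpleGraph

/-- Property `P_i`: any two distinct vertices are joined by a path with exactly `i` vertices. -/
def HasP {n : ℕ} (G : SimpleGraph (Fin n)) (i : ℕ) : Prop :=
  ∀ u v : Fin n, u ≠ v → ∃ p : G.Walk u v, p.IsPath ∧ p.length + 1 = i

/-- The closure of `S` for order `n`. -/
def closure (n : ℕ) (S : Set ℕ) : Set ℕ :=
  {j | 2 ≤ j ∧ j ≤ n ∧ ∀ G : SimpleGraph (Fin n), (∀ i ∈ S, HasP G i) → HasP G j}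

def es : List (Fin 7 × Fin 7) :=
  [(0,4),(0,5),(1,3),(1,5),(1,6),(2,3),(2,4),(2,6),(3,6),(4,6),(5,6)]

def adj (u v : Fin 7) : Bool := es.contains (u, v) || es.contains (v, u)

def G0 : SimpleGraph (Fin 7) where
  Adj u v := adj u v = true
  symm := ⟨by decide⟩
  loopless := ⟨by decide⟩

instance : DecidableRel G0.Adj := fun u v => inferInstanceAs (Decidable (adj u v = true))

theorem p4 : HasP G0 4 := by
  intro u v huv
  have key : ∀ u v : Fin 7, u ≠ v → ∃ a b : Fin 7, List.IsChain G0.Adj [u, a, b, v] ∧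
      [u, a, b, v].Nodup := by decide +kernel
  obtain ⟨a, b, h1, h2⟩ := key u v huv
  obtain ⟨p, hp, -, hl⟩ := Pool.Agent.H24.PathList.path_of_chain [a, b, v] u v h1 (by simp) h2
  exact ⟨p, hp, by simp [hl]⟩

theorem p6 : HasP G0 6 := by
  intro u v huv
  have key : ∀ u v : Fin 7, u ≠ v → ∃ a, G0.Adj u a ∧ ∃ b, G0.Adj a b ∧ ∃ c, G0.Adj b c ∧
      ∃ d : Fin 7, G0.Adj c d ∧ G0.Adj d v ∧ [u, a, b, c, d, v].Nodup := by decide +kernel
  obtain ⟨a, h1, b, h2, c, h3, d, h4, h5, h6⟩ := key u v huv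
  obtain ⟨p, hp, -, hl⟩ := Pool.Agent.H24.PathList.path_of_chain (G := G0) [a, b, c, d, v] u v
    (by simp [h1, h2, h3, h4, h5]) (by simp) h6
  exact ⟨p, hp, by simp [hl]⟩

theorem np5 : ¬ HasP G0 5 := by
  intro h
  obtain ⟨p, hp, hl⟩ := h 3 6 (by decide)
  have key : ∀ a b c : Fin 7, ¬ (List.IsChain G0.Adj [3, a, b, c, 6] ∧
      [3, a, b, c, (6 : Fin 7)].Nodup) := by decide +kernel
  obtain ⟨h1, h2, h3⟩ := Pool.Agent.H24.PathList.chain_of_walk p
  have h4 := p.length_support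
  rw [Walk.isPath_def] at hp
  generalize p.support = l at *
  rw [hl] at h4
  match l, h4 with
  | [x, a, b, c, y], _ =>
    simp at h2 h3
    subst h2 h3
    exact key a b c ⟨h1, hp⟩

theorem result : ∃ n : ℕ, 4 ≤ n ∧ ∃ S : Set ℕ, S ⊆ Set.Icc 4 n ∧
    ∃ a b c : ℕ, a < b ∧ b < c ∧ a ∈ closure n S ∧ c ∈ closure n S ∧ b ∉ closure n S := by
  refine ⟨7, by norm_num, {4, 6}, ?_, 4, 5, 6, by norm_num, by norm_num, ?_, ?_, ?_⟩
  · intro x hx
    rcases hx with rfl | rfl <;> simp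
  · exact ⟨by norm_num, by norm_num, fun G h => h 4 (by simp)⟩
  · exact ⟨by norm_num, by norm_num, fun G h => h 6 (by simp)⟩
  · intro h
    refine np5 (h.2.2 G0 ?_)
    intro i hi
    rcases hi with rfl | rfl
    · exact p4
    · exact p6

end Pool.Agent.Results.MP_0ab4d0_co.NotInterval
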